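import Pool.Agent.Q124.LC.Main

/-!
# Locating chromatic numbers of `K_m □ C_n` and `K_m □ P_n`

For all `m, n ≥ 16` both numbers are `m + 1` if `n ≤ m + 1` and `m + 2` if `n > m + 1`; in
particular they are equal for all large `m, n`.
-/

set_option autoImplicit false

namespace Pool.Agent.Results.MP_6ba634_co.LocatingChromatic

open SimpleGraph Pool.Agent.Q124.LC

theorem result :
    (∃ N : ℕ, ∀ m n : ℕ, N ≤ m → N ≤ n →
      locChrom ((⊤ : SimpleGraph (Fin m)) □ cycleGraph n) =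
        locChrom ((⊤ : SimpleGraph (Fin m)) □ pathGraph n)) ∧
    ∀ m n : ℕ, 16 ≤ m → 16 ≤ n →
      locChrom ((⊤ : SimpleGraph (Fin m)) □ cycleGraph n) = (if n ≤ m + 1 then m + 1 else m + 2) ∧
      locChrom ((⊤ : SimpleGraph (Fin m)) □ pathGraph n) = (if n ≤ m + 1 then m + 1 else m + 2) :=
  ⟨⟨16, fun _ _ hm hn => (locChrom_cycle hm hn).trans (locChrom_path hm hn).symm⟩,
    fun _ _ hm hn => ⟨locChrom_cycle hm hn, locChrom_path hm hn⟩⟩

end Pool.Agent.Results.MP_6ba634_co.LocatingChromatic
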